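import Pool.Agent.GEN.StmtsR

/-!
# GEN, row DSA: descent of a functional equation to a domain (author helper81)
-/

set_option autoImplicit false

namespace Pool.Agent.GEN.H81

open MvPolynomial Pool.Agent.Helper6_Mono

section push

variable {σ A K : Type} [CommRing A] [CommRing K] [Algebra A K] [Algebra A ℂ]

open scoped Classical in
/-- the functional applied to the coefficients -/
noncomputable def Pm (π : ℂ →+ K) (p : MvPolynomial σ ℂ) : MvPolynomial σ K :=
  ∑ m ∈ p.support, monomial m (π (coeff m p))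

theorem coeff_Pm (π : ℂ →+ K) (p : MvPolynomial σ ℂ) (m : σ →₀ ℕ) :
    coeff m (Pm π p) = π (coeff m p) := by
  classical
  rw [Pm, coeff_sum]
  simp only [coeff_monomial]
  rw [Finset.sum_ite_eq']
  split_ifs with h
  · rfl
  · rw [MvPolynomial.notMem_support_iff.1 h, map_zero]

theorem Pm_add (π : ℂ →+ K) (p q : MvPolynomial σ ℂ) : Pm π (p + q) = Pm π p + Pm π q := by
  ext m
  rw [coeff_add, coeff_Pm, coeff_Pm, coeff_Pm, coeff_add, map_add]

theorem Pm_zero (π : ℂ →+ K) : Pm π (0 : MvPolynomial σ ℂ) = 0 := by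
  ext m
  rw [coeff_Pm, coeff_zero, map_zero, coeff_zero]

theorem Pm_sum {ι : Type} (π : ℂ →+ K) (s : Finset ι) (p : ι → MvPolynomial σ ℂ) :
    Pm π (∑ i ∈ s, p i) = ∑ i ∈ s, Pm π (p i) := by
  classical
  induction s using Finset.induction_on with
  | empty => rw [Finset.sum_empty, Finset.sum_empty, Pm_zero]
  | insert a s ha ih => rw [Finset.sum_insert ha, Finset.sum_insert ha, Pm_add, ih]

theorem Pm_listSum (π : ℂ →+ K) (l : List (MvPolynomial σ ℂ)) :
    Pm π l.sum = (l.map (Pm π)).sum := by
  induction l with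
  | nil => rw [List.sum_nil, List.map_nil, List.sum_nil, Pm_zero]
  | cons a l ih => rw [List.sum_cons, List.map_cons, List.sum_cons, Pm_add, ih]

/-- linearity over the polynomials with coefficients in `A` -/
theorem Pm_mul (π : ℂ →+ K) (hπ : ∀ (a : A) (z : ℂ), π (z * algebraMap A ℂ a) =
    π z * algebraMap A K a) (p : MvPolynomial σ ℂ) (q : MvPolynomial σ A) :
    Pm π (p * map (algebraMap A ℂ) q) = Pm π p * map (algebraMap A K) q := by
  classical
  ext m
  rw [coeff_Pm, coeff_mul, coeff_mul, map_sum]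
  refine Finset.sum_congr rfl fun x _ => ?_
  rw [coeff_Pm, coeff_map, coeff_map, hπ]

open scoped Classical in
/-- the functional applied to the coefficients of a polynomial in `s` -/
noncomputable def Pp (π : ℂ →+ K) (a : Polynomial (MvPolynomial σ ℂ)) :
    Polynomial (MvPolynomial σ K) :=
  ∑ i ∈ a.support, Polynomial.monomial i (Pm π (a.coeff i))

theorem Pp_eval (π : ℂ →+ K) (hπ : ∀ (a : A) (z : ℂ), π (z * algebraMap A ℂ a) =
    π z * algebraMap A K a) (a : Polynomial (MvPolynomial σ ℂ)) (n : ℕ) :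
    (Pp π a).eval (n : MvPolynomial σ K) = Pm π (a.eval (n : MvPolynomial σ ℂ)) := by
  rw [Pp, Polynomial.eval_finset_sum, Polynomial.eval_eq_sum, Polynomial.sum_def, Pm_sum]
  refine Finset.sum_congr rfl fun i _ => ?_
  rw [Polynomial.eval_monomial]
  have h := Pm_mul π hπ (a.coeff i) ((n : MvPolynomial σ A) ^ i)
  rw [map_pow, map_pow, map_natCast, map_natCast] at h
  exact h.symm

end push

section clear

variable {σ A K : Type} [CommRing A] [IsDomain A] [Field K] [Algebra A K] [IsFractionRing A K]

/-- common denominators -/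
theorem clear_one (z : K) : ∃ d : A, d ≠ 0 ∧ ∃ a : A, algebraMap A K a = algebraMap A K d * z := by
  obtain ⟨⟨a, d⟩, h⟩ := IsLocalization.surj (nonZeroDivisors A) z
  refine ⟨d, nonZeroDivisors.ne_zero d.2, a, ?_⟩
  rw [mul_comm]
  exact h.symm

theorem clear_mv (p : MvPolynomial σ K) : ∃ d : A, d ≠ 0 ∧ ∃ q : MvPolynomial σ A,
    map (algebraMap A K) q = C (algebraMap A K d) * p := by
  induction p using MvPolynomial.induction_on with
  | C z =>
    obtain ⟨d, hd, a, ha⟩ := clear_one (A := A) z
    refine ⟨d, hd, C a, ?_⟩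
    rw [map_C, ha, C_mul]
  | add p q hp hq =>
    obtain ⟨d, hd, a, ha⟩ := hp
    obtain ⟨e, he, b, hb⟩ := hq
    refine ⟨d * e, mul_ne_zero hd he, C e * a + C d * b, ?_⟩
    rw [map_add, map_mul, map_mul, map_C, map_C, ha, hb, map_mul, C_mul]
    ring
  | mul_X p i hp =>
    obtain ⟨d, hd, a, ha⟩ := hp
    refine ⟨d, hd, a * X i, ?_⟩
    rw [map_mul, map_X, ha, mul_assoc]

theorem clear_pol (p : Polynomial (MvPolynomial σ K)) : ∃ d : A, d ≠ 0 ∧
    ∃ q : Polynomial (MvPolynomial σ A), q.map (map (algebraMap A K)) =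
      Polynomial.C (C (algebraMap A K d)) * p := by
  induction p using Polynomial.induction_on' with
  | add p q hp hq =>
    obtain ⟨d, hd, a, ha⟩ := hp
    obtain ⟨e, he, b, hb⟩ := hq
    refine ⟨d * e, mul_ne_zero hd he, Polynomial.C (C e) * a + Polynomial.C (C d) * b, ?_⟩
    rw [Polynomial.map_add, Polynomial.map_mul, Polynomial.map_mul, Polynomial.map_C,
      Polynomial.map_C, map_C, map_C, ha, hb, map_mul, C_mul, Polynomial.C_mul]
    ring
  | monomial n a =>
    obtain ⟨d, hd, b, hb⟩ := clear_mv (A := A) a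
    refine ⟨d, hd, Polynomial.monomial n b, ?_⟩
    rw [Polynomial.map_monomial, hb, Polynomial.C_mul_monomial]

theorem clear_uni (p : Polynomial K) : ∃ d : A, d ≠ 0 ∧
    ∃ q : Polynomial A, q.map (algebraMap A K) = Polynomial.C (algebraMap A K d) * p := by
  induction p using Polynomial.induction_on' with
  | add p q hp hq =>
    obtain ⟨d, hd, a, ha⟩ := hp
    obtain ⟨e, he, b, hb⟩ := hq
    refine ⟨d * e, mul_ne_zero hd he, Polynomial.C e * a + Polynomial.C d * b, ?_⟩
    rw [Polynomial.map_add, Polynomial.map_mul, Polynomial.map_mul, Polynomial.map_C,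
      Polynomial.map_C, ha, hb, map_mul, Polynomial.C_mul]
    ring
  | monomial n a =>
    obtain ⟨d, hd, b, hb⟩ := clear_one (A := A) a
    refine ⟨d, hd, Polynomial.monomial n b, ?_⟩
    rw [Polynomial.map_monomial, hb, Polynomial.C_mul_monomial]

end clear

theorem dWord_map {σ A B : Type} [CommRing A] [CommRing B] (φ : A →+* B) (w : List σ)
    (q : MvPolynomial σ A) : dWordR w (map φ q) = map φ (dWordR w q) := by
  induction w with
  | nil => rfl
  | cons i w ih =>
    show pderiv i (dWordR w (map φ q)) = map φ (pderiv i (dWordR w q))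
    rw [ih, MvPolynomial.pderiv_map]

/-- the sum over the list over `A` -/
theorem clear_list {σ A K : Type} [CommRing A] [IsDomain A] [Field K] [Algebra A K]
    [IsFractionRing A K] (fA : MvPolynomial σ A)
    (P : List (Polynomial (MvPolynomial σ K) × List σ)) : ∃ d : A, d ≠ 0 ∧ ∀ e : A, d ∣ e →
    ∃ PA : List (Polynomial (MvPolynomial σ A) × List σ), ∀ n : ℕ,
      map (algebraMap A K) (PA.map fun aw => aw.1.eval (n : MvPolynomial σ A) *
        dWordR aw.2 (fA ^ (n + 1))).sum = C (algebraMap A K e) *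
        (P.map fun aw => aw.1.eval (n : MvPolynomial σ K) *
          map (algebraMap A K) (dWordR aw.2 (fA ^ (n + 1)))).sum := by
  induction P with
  | nil =>
    refine ⟨1, one_ne_zero, fun e _ => ⟨[], fun n => ?_⟩⟩
    simp
  | cons a P ih =>
    obtain ⟨d₁, hd₁, h₁⟩ := ih
    obtain ⟨d₂, hd₂, q, hq⟩ := clear_pol (A := A) a.1
    refine ⟨d₂ * d₁, mul_ne_zero hd₂ hd₁, fun e he => ?_⟩
    obtain ⟨PA, hPA⟩ := h₁ e ((Dvd.intro_left d₂ rfl).trans he)
    obtain ⟨k, rfl⟩ := (Dvd.intro d₁ rfl : d₂ ∣ d₂ * d₁).trans he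
    refine ⟨(Polynomial.C (C k) * q, a.2) :: PA, fun n => ?_⟩
    rw [List.map_cons, List.sum_cons, List.map_cons, List.sum_cons, map_add, hPA n, map_mul,
      mul_add]
    congr 1
    have h2 : map (algebraMap A K) (Polynomial.eval (n : MvPolynomial σ A)
        (Polynomial.C (C k) * q)) = C (algebraMap A K (d₂ * k)) *
          Polynomial.eval (n : MvPolynomial σ K) a.1 := by
      have h3 := congrArg (Polynomial.eval (n : MvPolynomial σ K)) hq
      rw [Polynomial.eval_mul, Polynomial.eval_C] at h3
      have h4 : Polynomial.eval (n : MvPolynomial σ K) (q.map (map (algebraMap A K))) =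
          map (algebraMap A K) (Polynomial.eval (n : MvPolynomial σ A) q) := by
        rw [Polynomial.eval_map, ← Polynomial.eval₂_at_apply, map_natCast]
      rw [h4] at h3
      rw [Polynomial.eval_mul, Polynomial.eval_C, map_mul, map_C, h3, map_mul, C_mul]
      ring
    rw [h2]
    ring

theorem dsa : DsaStmt := by
  intro σ _ A _ _ _ _ hinj fA b P hP s₀ hs₀
  classical
  -- the fraction field inside `ℂ`
  letI : Algebra (FractionRing A) ℂ :=
    (IsFractionRing.lift (A := A) (K := FractionRing A) hinj).toAlgebra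
  have hAK : ∀ a : A, algebraMap (FractionRing A) ℂ (algebraMap A (FractionRing A) a) =
      algebraMap A ℂ a := fun a => IsFractionRing.lift_algebraMap hinj a
  obtain ⟨φ, hφ⟩ : ∃ φ : Module.Dual (FractionRing A) ℂ, φ (b.eval (s₀ : ℂ)) ≠ 0 := by
    by_contra hno
    push Not at hno
    exact hs₀ ((Module.forall_dual_apply_eq_zero_iff (FractionRing A) _).1 hno)
  set π : ℂ →+ FractionRing A := φ.toAddMonoidHom with hπdef
  have hπ : ∀ (a : A) (z : ℂ), π (z * algebraMap A ℂ a) =
      π z * algebraMap A (FractionRing A) a := by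
    intro a z
    rw [← hAK a, mul_comm z, ← Algebra.smul_def]
    show φ (algebraMap A (FractionRing A) a • z) = φ z * algebraMap A (FractionRing A) a
    rw [map_smul, smul_eq_mul, mul_comm]
  -- the image of `b`
  set bK : Polynomial (FractionRing A) := ∑ i ∈ b.support, Polynomial.monomial i (π (b.coeff i))
    with hbK
  have hbev : ∀ a : A, bK.eval (algebraMap A (FractionRing A) a) =
      π (b.eval (algebraMap A ℂ a)) := by
    intro a
    rw [hbK, Polynomial.eval_finset_sum, Polynomial.eval_eq_sum, Polynomial.sum_def, map_sum]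
    refine Finset.sum_congr rfl fun i _ => ?_
    rw [Polynomial.eval_monomial, ← map_pow, ← map_pow, hπ]
  have hbs : bK.eval (algebraMap A (FractionRing A) (algebraMap ℚ A s₀)) ≠ 0 := by
    rw [hbev]
    have h1 : algebraMap A ℂ (algebraMap ℚ A s₀) = (s₀ : ℂ) := by
      have := eq_ratCast ((algebraMap A ℂ).comp (algebraMap ℚ A)) s₀
      simpa using this
    rw [h1]
    exact hφ
  -- the equation over the fraction field
  have heqK : ∀ n : ℕ, C (bK.eval (n : FractionRing A)) * map (algebraMap A (FractionRing A)) fA ^ n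
      = ((P.map fun aw => (Pp π aw.1, aw.2)).map fun aw =>
        aw.1.eval (n : MvPolynomial σ (FractionRing A)) *
          map (algebraMap A (FractionRing A)) (dWordR aw.2 (fA ^ (n + 1)))).sum := by
    intro n
    have h1 := congrArg (Pm π) (hP n)
    have h2 : Pm π (C (b.eval (n : ℂ)) * map (algebraMap A ℂ) fA ^ n) =
        C (bK.eval (n : FractionRing A)) * map (algebraMap A (FractionRing A)) fA ^ n := by
      rw [← map_pow, Pm_mul π hπ, map_pow]
      congr 1
      ext m
      rw [coeff_Pm, coeff_C, coeff_C]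
      have h3 := hbev (n : A)
      rw [map_natCast, map_natCast] at h3
      split_ifs
      · exact h3.symm
      · rw [map_zero]
    rw [h2] at h1
    rw [h1, Pm_listSum, List.map_map, List.map_map]
    congr 1
    refine List.map_congr_left fun aw _ => ?_
    simp only [Function.comp_apply]
    have h4 : dWord aw.2 (map (algebraMap A ℂ) fA ^ (n + 1)) =
        map (algebraMap A ℂ) (dWordR aw.2 (fA ^ (n + 1))) := by
      rw [← map_pow]
      exact dWord_map (algebraMap A ℂ) aw.2 (fA ^ (n + 1))
    rw [h4, Pm_mul π hπ, Pp_eval π hπ]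
  -- common denominators
  obtain ⟨d₁, hd₁, h₁⟩ := clear_list (K := FractionRing A) fA (P.map fun aw => (Pp π aw.1, aw.2))
  obtain ⟨d₂, hd₂, bA, hbA⟩ := clear_uni (A := A) bK
  obtain ⟨PA, hPA⟩ := h₁ (d₁ * d₂) (Dvd.intro d₂ rfl)
  have hbA2 : ∀ a : A, algebraMap A (FractionRing A) ((Polynomial.C d₁ * bA).eval a) =
      algebraMap A (FractionRing A) (d₁ * d₂) * bK.eval (algebraMap A (FractionRing A) a) := by
    intro a
    have h3 := congrArg (Polynomial.eval (algebraMap A (FractionRing A) a)) hbA
    rw [Polynomial.eval_mul, Polynomial.eval_C, Polynomial.eval_map, Polynomial.eval₂_at_apply]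
      at h3
    rw [Polynomial.eval_mul, Polynomial.eval_C, map_mul, h3, map_mul]
    ring
  refine ⟨Polynomial.C d₁ * bA, PA, ?_, ?_⟩
  · intro h0
    have h1 := hbA2 (algebraMap ℚ A s₀)
    rw [h0, map_zero] at h1
    have h2 : algebraMap A (FractionRing A) (d₁ * d₂) ≠ 0 := by
      intro h3
      exact mul_ne_zero hd₁ hd₂ ((IsFractionRing.injective A (FractionRing A)) (by
        rw [h3, map_zero]))
    exact mul_ne_zero h2 hbs h1.symm
  · intro n
    apply MvPolynomial.map_injective (algebraMap A (FractionRing A))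
      (IsFractionRing.injective A (FractionRing A))
    rw [hPA n, ← heqK n, map_mul, map_C, map_pow, hbA2, C_mul, map_natCast]
    ring

end Pool.Agent.GEN.H81
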